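import Pool.Agent.R775.PH.Sq

/-!
# The bound in components
-/

set_option autoImplicit false

namespace Pool.Agent.R775.PH

open Pool.Agent.W666.GB Pool.Agent.W669.HD Finset

variable {m : ℕ} {M : T4 m} {o : Fin m × Bool}

/-- purity outside of the index `o` -/
def PureOff (M : T4 m) (o : Fin m × Bool) : Prop :=
  ∀ i j k l, i ≠ o → j ≠ o → k ≠ o → l ≠ o → ¬ (i = k ∧ j = l) → ¬ (i = l ∧ j = k) → M i j k l = 0

/-- the Jacobi operators of the vectors `e_i`, `i ≠ o`, are nonnegative -/
def JacNonneg (M : T4 m) (o : Fin m × Bool) : Prop :=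
  ∀ i, i ≠ o → ∀ c : Fin m × Bool → ℝ, 0 ≤ ∑ j, ∑ k, c j * c k * M j i k i

theorem quad_expand (hp : PureOff M o) {q : Fin m × Bool} (hq : q ≠ o) (t : ℝ)
    (d : Fin m × Bool → ℝ) :
    ∑ j, ∑ k, (if j = o then t else d j) * (if k = o then t else d k) * M j q k q =
      t ^ 2 * M o q o q + t * (∑ k, if k = o then 0 else d k * M o q k q) +
        t * (∑ j, if j = o then 0 else d j * M j q o q) +
        ∑ j, (if j = o then 0 else d j ^ 2 * M j q j q) := by
  classical
  have h1 : ∀ j k : Fin m × Bool,
      (if j = o then t else d j) * (if k = o then t else d k) * M j q k q =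
      (if j = o then (if k = o then t ^ 2 * M o q o q else 0) else 0) +
      (if j = o then (if k = o then 0 else t * (d k * M o q k q)) else 0) +
      (if k = o then (if j = o then 0 else t * (d j * M j q o q)) else 0) +
      (if j = k then (if j = o then 0 else d j ^ 2 * M j q j q) else 0) := by
    intro j k
    by_cases hj : j = o
    · subst hj
      by_cases hk : k = j
      · subst hk
        simp only [if_true, add_zero]; ring
      · have hk' : ¬ j = k := fun h => hk h.symm
        simp only [if_true, if_neg hk, if_neg hk', add_zero, zero_add]; ring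
    · by_cases hk : k = o
      · subst hk
        simp only [if_true, if_neg hj, add_zero, zero_add]; ring
      · by_cases hjk : j = k
        · subst hjk
          simp only [if_true, if_neg hj, add_zero, zero_add]; ring
        · have h0 : M j q k q = 0 := hp _ _ _ _ hj hq hk hq (fun h => hjk h.1)
            (fun h => hjk (h.1.trans h.2))
          simp [hj, hk, hjk, h0]
  simp only [h1, Finset.sum_add_distrib]
  have e1 : ∑ j : Fin m × Bool, ∑ k : Fin m × Bool,
      (if j = o then (if k = o then t ^ 2 * M o q o q else 0) else 0) = t ^ 2 * M o q o q := by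
    rw [Finset.sum_eq_single o]
    · simp
    · intro j _ hj; simp [hj]
    · simp
  have e2 : ∑ j : Fin m × Bool, ∑ k : Fin m × Bool,
      (if j = o then (if k = o then 0 else t * (d k * M o q k q)) else 0) =
      t * ∑ k, (if k = o then 0 else d k * M o q k q) := by
    rw [Finset.sum_eq_single o, Finset.mul_sum]
    · refine Finset.sum_congr rfl fun k _ => ?_
      simp
    · intro j _ hj; simp [hj]
    · simp
  have e3 : ∑ j : Fin m × Bool, ∑ k : Fin m × Bool,
      (if k = o then (if j = o then 0 else t * (d j * M j q o q)) else 0) =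
      t * ∑ j, (if j = o then 0 else d j * M j q o q) := by
    rw [Finset.sum_comm, Finset.sum_eq_single o, Finset.mul_sum]
    · refine Finset.sum_congr rfl fun k _ => ?_
      simp
    · intro j _ hj; simp [hj]
    · simp
  have e4 : ∑ j : Fin m × Bool, ∑ k : Fin m × Bool,
      (if j = k then (if j = o then 0 else d j ^ 2 * M j q j q) else 0) =
      ∑ j, (if j = o then 0 else d j ^ 2 * M j q j q) := by
    refine Finset.sum_congr rfl fun j _ => ?_
    rw [Finset.sum_ite_eq]; simp
  rw [e1, e2, e3, e4]

theorem kk_nonneg (_hM : Sy M) (_hp : PureOff M o) (hj : JacNonneg M o) (p q : Fin m × Bool)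
    (hq : q ≠ o) : 0 ≤ kk M p q := by
  classical
  have h := hj q hq (fun j => if j = p then 1 else 0)
  have h1 : ∑ j : Fin m × Bool, ∑ k : Fin m × Bool,
      (if j = p then (1 : ℝ) else 0) * (if k = p then 1 else 0) * M j q k q = M p q p q := by
    rw [Finset.sum_eq_single p, Finset.sum_eq_single p]
    · simp
    · intro k _ hk; simp [hk]
    · simp
    · intro j _ hj
      exact Finset.sum_eq_zero fun k _ => by simp [hj]
    · simp
  rw [h1] at h
  exact h

theorem zero_of_kk (hM : Sy M) (hp : PureOff M o) (hj : JacNonneg M o) {p q : Fin m × Bool}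
    (hpo : p ≠ o) (hq : q ≠ o) (h0 : kk M p q = 0) : M o q p q = 0 := by
  classical
  by_contra hne
  -- `t = 1`, `d = u` at `p`
  have h : ∀ u : ℝ, 0 ≤ M o q o q + 2 * u * M o q p q := by
    intro u
    have h1 := hj q hq (fun j => if j = o then 1 else (if j = p then u else 0))
    rw [quad_expand hp hq 1 (fun j => if j = p then u else 0)] at h1
    have e1 : ∑ k : Fin m × Bool, (if k = o then 0 else (if k = p then u else 0) * M o q k q) =
        u * M o q p q := by
      rw [Finset.sum_eq_single p]
      · simp [hpo]
      · intro k _ hk; simp [hk]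
      · simp
    have e2 : ∑ k : Fin m × Bool, (if k = o then 0 else (if k = p then u else 0) * M k q o q) =
        u * M p q o q := by
      rw [Finset.sum_eq_single p]
      · simp [hpo]
      · intro k _ hk; simp [hk]
      · simp
    have e3 : ∑ k : Fin m × Bool,
        (if k = o then 0 else (if k = p then u else 0) ^ 2 * M k q k q) = 0 := by
      rw [Finset.sum_eq_single p]
      · unfold kk at h0; simp [hpo, h0]
      · intro k _ hk; simp [hk]
      · simp
    rw [e1, e2, e3, hM.pair o q p q] at h1
    linarith
  have h2 := h (-(M o q o q + 1) / (2 * M o q p q))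
  have h3 : 2 * (-(M o q o q + 1) / (2 * M o q p q)) * M o q p q = -(M o q o q + 1) := by
    field_simp
  rw [h3] at h2
  linarith

theorem rr_nonneg (hM : Sy M) (hp : PureOff M o) (hj : JacNonneg M o) (q : Fin m × Bool)
    (hq : q ≠ o) : 0 ≤ rr M o q := by
  classical
  have h1 := hj q hq (fun j => if j = o then 1 else (if j = q then 0 else - ss M o j q))
  rw [quad_expand hp hq 1 (fun j => if j = q then 0 else - ss M o j q)] at h1
  have e : (∑ k, if k = o then 0 else (if k = q then 0 else - ss M o k q) * M o q k q) +
        (∑ j, if j = o then 0 else (if j = q then 0 else - ss M o j q) * M j q o q) +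
        ∑ j, (if j = o then 0 else (if j = q then 0 else - ss M o j q) ^ 2 * M j q j q) =
      - ∑ p, (if p = o ∨ p = q then 0 else kk M p q * ss M o p q ^ 2) := by
    rw [← Finset.sum_add_distrib, ← Finset.sum_add_distrib, ← Finset.sum_neg_distrib]
    refine Finset.sum_congr rfl fun p _ => ?_
    by_cases hpo : p = o
    · simp [hpo]
    · by_cases hpq : p = q
      · simp [hpq]
      · have hn : ¬ (p = o ∨ p = q) := by push Not; exact ⟨hpo, hpq⟩
        simp only [if_neg hpo, if_neg hpq, if_neg hn]
        have h3 : M o q p q = kk M p q * ss M o p q := by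
          by_cases hk : kk M p q = 0
          · rw [hk, zero_mul]; exact zero_of_kk hM hp hj hpo hq hk
          · unfold ss; field_simp
        have h4 : M p q o q = M o q p q := hM.pair _ _ _ _
        rw [h4, h3]
        unfold kk
        ring
  unfold rr
  linarith

theorem rel_PP {N : T4 m} {δ : ℝ} (hδ : 0 ≤ δ) (hN : Sy N)
    (hM : M = fun i j k l => N i j k l - δ * unitCurv i j k l)
    (hp : PureOff N o) (hj : JacNonneg M o) :
    Rel N (fun i j k l => δ * unitCurv i j k l + PP M o i j k l) o := by
  classical
  have hMs : Sy M := by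
    rw [hM]
    have hu := unit_sy (m := m) δ
    refine ⟨fun i j k l => ?_, fun i j k l => ?_, fun i j k l => ?_⟩
    · have := hu.a12 i j k l
      rw [hN.a12, this]; ring
    · have := hu.a34 i j k l
      rw [hN.a34, this]; ring
    · have := hu.pair i j k l
      rw [hN.pair, this]
  have hu0 : ∀ i j k l : Fin m × Bool, ¬ (i = k ∧ j = l) → ¬ (i = l ∧ j = k) →
      unitCurv i j k l = 0 := by
    intro i j k l h1 h2
    unfold unitCurv
    by_cases h3 : i = k
    · have h4 : ¬ j = l := fun h => h1 ⟨h3, h⟩
      by_cases h5 : i = l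
      · have h6 : ¬ j = k := fun h => h2 ⟨h5, h⟩
        simp [h4, h6]
      · simp [h4, h5]
    · by_cases h5 : i = l
      · have h6 : ¬ j = k := fun h => h2 ⟨h5, h⟩
        simp [h3, h6]
      · simp [h3, h5]
  have hNM : ∀ i j k l, N i j k l = δ * unitCurv i j k l + M i j k l := by
    intro i j k l; rw [hM]; ring
  have hMp : PureOff M o := by
    intro i j k l h1 h2 h3 h4 h5 h6
    rw [hM]
    beta_reduce
    rw [hp _ _ _ _ h1 h2 h3 h4 h5 h6, hu0 _ _ _ _ h5 h6]; ring
  have hk : ∀ p q, p ≠ o → q ≠ o → 0 ≤ kk M p q := fun p q _ hq => kk_nonneg hMs hMp hj p q hq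
  have hr : ∀ q, q ≠ o → 0 ≤ rr M o q := fun q hq => rr_nonneg hMs hMp hj q hq
  have hself : ∀ i k l, M i i k l = 0 := fun i k l => by
    have := hMs.a12 i i k l; linarith
  have hself' : ∀ i j k, M i j k k = 0 := fun i j k => by
    have := hMs.a34 i j k k; linarith
  refine ⟨hp, ?_, ?_, ?_, ?_, ?_⟩
  · intro i j
    rw [hNM]
    have hu : 0 ≤ δ * unitCurv i j i j := by
      refine mul_nonneg hδ ?_
      unfold unitCurv
      by_cases h : i = j
      · simp [h]
      · simp [h]
    have : 0 ≤ M i j i j := by
      by_cases h : j = o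
      · by_cases h' : i = o
        · rw [h, h', hself]
        · have h2 := kk_nonneg hMs hMp hj j i h'
          unfold kk at h2
          rw [hMs.a12 i j, hMs.a34 _ _ i j] at h2
          linarith
      · exact kk_nonneg hMs hMp hj i j h
    linarith
  · intro i j k l h1 h2 h3 h4
    rw [PP_off hMs hk h3 h4, hNM]
    congr 1
    by_cases hkl : k = l
    · rw [if_pos hkl, hkl, hself']
    · rw [if_neg hkl, om, vv, vv, vv, vv, if_neg h1, if_neg h2]
      simp only [mul_zero, add_zero]
      by_cases h5 : i = k ∧ j = l
      · obtain ⟨h5, h6⟩ := h5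
        subst h5
        subst h6
        rw [if_neg hkl]
        simp [kk]
      · by_cases h6 : i = l ∧ j = k
        · obtain ⟨h6, h7⟩ := h6
          subst h6
          subst h7
          rw [if_neg hkl, if_neg (Ne.symm hkl)]
          simp only [if_true, kk]
          rw [hMs.a12 j i]
          ring
        · rw [hMp _ _ _ _ h1 h2 h3 h4 h5 h6]
          have : ((if i = k then (1 : ℝ) else 0) * (if j = l then 1 else 0) -
              (if j = k then 1 else 0) * (if i = l then 1 else 0)) = 0 := by
            have := hu0 i j k l h5 h6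
            unfold unitCurv at this
            linarith
          rw [this, mul_zero]
  · intro i k h1 h2
    rw [PP_off hMs hk h2 h1, hNM]
    congr 1
    by_cases hki : k = i
    · rw [if_pos hki, hki, hself']
    · rw [if_neg hki, om, vv, vv, vv, vv]
      simp only [if_true, if_neg h1, if_neg (Ne.symm h2), if_neg (Ne.symm h1), mul_zero, add_zero,
        zero_add, mul_one, if_neg (Ne.symm hki), zero_mul, sub_zero]
      by_cases h0 : kk M k i = 0
      · rw [h0, zero_mul, zero_of_kk hMs hMp hj h2 h1 h0]
      · unfold ss; field_simp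
  · intro i
    rw [hNM]
    congr 1
    by_cases hi : i = o
    · rw [hi, hself]
      have := (PP_sy (M := M) (o := o)).a12 o o o o
      linarith
    · exact PP_oo hMs hk hr hi
  · intro i k l h1 h2 h3 h4 h5
    rw [PP_off hMs hk h2 h3]
    have : unitCurv o i k l = 0 := hu0 _ _ _ _ (fun h => h2 h.1.symm) (fun h => h3 h.1.symm)
    rw [this, mul_zero, zero_add]
    split_ifs
    · rfl
    · rw [om, vv, vv, vv, vv]
      simp [h1, h4, h5, Ne.symm h2, Ne.symm h3]

/-- **The bound in components.** -/
theorem comp_bound {N : T4 m} {δ : ℝ} (hδ : 0 ≤ δ) (hN : Sy N)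
    (hp : PureOff N o) (hj : JacNonneg (fun i j k l => N i j k l - δ * unitCurv i j k l) o) :
    2 ^ m * (δ ^ m * (2 * m).factorial) ≤ gm (fun _ : Fin m => N) := by
  have h1 := rel_PP hδ hN rfl hp hj
  refine le_trans ?_ (gm_mono h1 hN ?_)
  · exact gm_squares hδ _
  · have hu := unit_sy (m := m) δ
    have hP := PP_sy (M := fun i j k l => N i j k l - δ * unitCurv i j k l) (o := o)
    refine ⟨fun i j k l => ?_, fun i j k l => ?_, fun i j k l => ?_⟩
    · have := hu.a12 i j k l
      rw [hP.a12, this]; ring
    · have := hu.a34 i j k l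
      rw [hP.a34, this]; ring
    · have := hu.pair i j k l
      rw [hP.pair, this]

end Pool.Agent.R775.PH
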