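import Pool.Agent.R775.PH.Geo

/-!
# Classes of curvature tensors which are pure on a hyperplane
-/

set_option autoImplicit false

namespace Pool.Agent.R775.PH

open Pool.Agent.W666.GB Pool.Agent.W669.HD Finset

variable {V : Type} [NormedAddCommGroup V] [InnerProductSpace ℝ V]

/-- symmetric bilinear forms -/
structure SymBil (B : V → V → ℝ) : Prop where
  add : ∀ x x' y, B (x + x') y = B x y + B x' y
  smul : ∀ (t : ℝ) x y, B (t • x) y = t * B x y
  symm : ∀ x y, B x y = B y x

/-- Curvature tensors given by a Gauss equation `R = ∑ h a b • (β a ∧ β b)` for symmetric bilinear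
forms `β a` all of which are diagonal with respect to some orthonormal vectors, one less than the
dimension `2 m` of `V`; the matrix `h` is arbitrary. -/
def GaussDiag (m : ℕ) (R : V → V → V → V → ℝ) : Prop :=
  ∃ (r : ℕ) (h : Fin r → Fin r → ℝ) (β : Fin r → V → V → ℝ) (u : Fin (2 * m - 1) → V),
    Orthonormal ℝ u ∧ (∀ a i j, i ≠ j → β a (u i) (u j) = 0) ∧
    ∀ x y z w, R x y z w = ∑ a, ∑ b, h a b * (β a x z * β b y w - β a x w * β b y z)

/-- Curvature tensors of hypersurfaces of warped products `I ×_f Q` (`Q` of constant curvature):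
`α` and `α + τ` are the curvatures of the planes of the ambient space tangent to `Q`, respectively
containing the direction of `I`, `T` is the tangential part of the unit vector in the direction of
`I`, `B` the second fundamental form. -/
def WarpHyp (R : V → V → V → V → ℝ) : Prop :=
  ∃ (α τ : ℝ) (T : V) (B : V → V → ℝ), SymBil B ∧
    ∀ x y z w, R x y z w = α * unitT x y z w +
      τ * (inner ℝ T x * inner ℝ T z * inner ℝ y w + inner ℝ T y * inner ℝ T w * inner ℝ x z -
        inner ℝ T x * inner ℝ T w * inner ℝ y z - inner ℝ T y * inner ℝ T z * inner ℝ x w) +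
      (B x z * B y w - B x w * B y z)

theorem SymBil.sum_right {B : V → V → ℝ} (hB : SymBil B) {ι : Type*} (s : Finset ι) (c : ι → ℝ)
    (f : ι → V) (x : V) : B x (∑ i ∈ s, c i • f i) = ∑ i ∈ s, c i * B x (f i) := by
  classical
  induction s using Finset.induction_on with
  | empty =>
    have := hB.smul 0 0 x
    rw [hB.symm]
    simpa using this
  | insert a s ha ih =>
    rw [Finset.sum_insert ha, Finset.sum_insert ha, hB.symm, hB.add, hB.smul, hB.symm _ x,
      hB.symm _ x, ih]

/-- diagonalisation of a symmetric bilinear form on a subspace -/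
theorem exists_diag [FiniteDimensional ℝ V] (H : Submodule ℝ V) {n : ℕ}
    (hn : Module.finrank ℝ H = n) {B : V → V → ℝ} (hB : SymBil B) :
    ∃ u : OrthonormalBasis (Fin n) ℝ H, ∀ i j, i ≠ j → B (u i) (u j) = 0 := by
  classical
  let b := stdOrthonormalBasis ℝ H
  let T : H →ₗ[ℝ] H :=
    { toFun := fun x => ∑ i, B x (b i) • b i
      map_add' := fun x y => by
        rw [← Finset.sum_add_distrib]
        refine Finset.sum_congr rfl fun i _ => ?_
        rw [← add_smul]
        congr 1
        exact hB.add _ _ _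
      map_smul' := fun t x => by
        rw [RingHom.id_apply, Finset.smul_sum]
        refine Finset.sum_congr rfl fun i _ => ?_
        rw [smul_smul]
        congr 1
        exact hB.smul _ _ _ }
  have hT : ∀ x y : H, inner ℝ (T x) y = B x y := by
    intro x y
    have h1 : inner ℝ (T x) y = ∑ i, B x (b i) * inner ℝ (b i) y := by
      show inner ℝ (∑ i, B x (b i) • b i) y = _
      rw [sum_inner]
      exact Finset.sum_congr rfl fun i _ => by rw [real_inner_smul_left]
    have h2 : (y : V) = ∑ i, inner ℝ (b i) y • (b i : V) := by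
      conv_lhs => rw [← b.sum_repr' y]
      rw [Submodule.coe_sum]
      rfl
    rw [h1, h2, hB.sum_right]
    exact Finset.sum_congr rfl fun i _ => mul_comm _ _
  have hs : T.IsSymmetric := fun x y => by
    rw [hT, real_inner_comm, hT, hB.symm]
  refine ⟨hs.eigenvectorBasis hn, fun i j hij => ?_⟩
  rw [← hT, hs.apply_eigenvectorBasis, inner_smul_left,
    (hs.eigenvectorBasis hn).orthonormal.2 hij, mul_zero]

theorem GaussDiag.pure {m : ℕ} {R : V → V → V → V → ℝ} (h : GaussDiag m R) :
    PureOnHyperplane m R := by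
  obtain ⟨r, h, β, u, hu, hd, hR⟩ := h
  refine ⟨u, hu, fun i j k l h1 h2 => ?_⟩
  rw [hR]
  refine Finset.sum_eq_zero fun a _ => Finset.sum_eq_zero fun b _ => ?_
  have e1 : β a (u i) (u k) * β b (u j) (u l) = 0 := by
    by_cases h3 : i = k
    · rw [hd b j l (fun h4 => h1 ⟨h3, h4⟩), mul_zero]
    · rw [hd a i k h3, zero_mul]
  have e2 : β a (u i) (u l) * β b (u j) (u k) = 0 := by
    by_cases h3 : i = l
    · rw [hd b j k (fun h4 => h2 ⟨h3, h4⟩), mul_zero]
    · rw [hd a i l h3, zero_mul]
  rw [e1, e2]; ring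

theorem finrank_of {m : ℕ} (e : OrthonormalBasis (Fin m × Bool) ℝ V) :
    Module.finrank ℝ V = 2 * m := by
  rw [Module.finrank_eq_card_basis e.toBasis]
  simp [mul_comm]

/-- the orthogonal complement of a vector contains an orthonormal family diagonalising a form -/
theorem exists_family {m : ℕ} (e : OrthonormalBasis (Fin m × Bool) ℝ V) (T : V) {B : V → V → ℝ}
    (hB : SymBil B) : ∃ u : Fin (2 * m - 1) → V, Orthonormal ℝ u ∧
      (∀ i, inner ℝ T (u i) = 0) ∧ ∀ i j, i ≠ j → B (u i) (u j) = 0 := by
  classical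
  rcases m with _ | n
  · exact ⟨fun i => i.elim0, ⟨fun i => i.elim0, fun i => i.elim0⟩, fun i => i.elim0,
      fun i => i.elim0⟩
  have hfin : FiniteDimensional ℝ V := e.toBasis.finiteDimensional_of_finite
  have hf := finrank_of e
  obtain ⟨T', hT', hTT⟩ : ∃ T' : V, T' ≠ 0 ∧ ∀ x, inner ℝ T' x = 0 → inner ℝ T x = 0 := by
    by_cases hT : T = 0
    · refine ⟨e (0, false), e.orthonormal.ne_zero _, fun x _ => by rw [hT, inner_zero_left]⟩
    · exact ⟨T, hT, fun x hx => hx⟩
  have hn : Module.finrank ℝ (Submodule.span ℝ {T'})ᗮ = 2 * (n + 1) - 1 := by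
    haveI : Fact (Module.finrank ℝ V = (2 * (n + 1) - 1) + 1) := ⟨by rw [hf]; omega⟩
    exact Submodule.finrank_orthogonal_span_singleton hT'
  obtain ⟨u, hu⟩ := exists_diag _ hn hB
  refine ⟨fun i => (u i : V), ?_, ?_, hu⟩
  · exact u.orthonormal.comp_linearIsometry (Submodule.subtypeₗᵢ _)
  · intro i
    apply hTT
    exact Submodule.mem_orthogonal_singleton_iff_inner_right.mp (u i).2

theorem WarpHyp.pure {m : ℕ} (e : OrthonormalBasis (Fin m × Bool) ℝ V)
    {R : V → V → V → V → ℝ} (h : WarpHyp R) : PureOnHyperplane m R := by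
  classical
  obtain ⟨α, τ, T, B, hB, hR⟩ := h
  obtain ⟨u, hu, hT, hd⟩ := exists_family e T hB
  refine ⟨u, hu, fun i j k l h1 h2 => ?_⟩
  rw [hR]
  simp only [hT, zero_mul]
  have hi : ∀ i j, i ≠ j → inner ℝ (u i) (u j) = 0 := fun i j hij => hu.2 hij
  have key : ∀ C : V → V → ℝ, (∀ i j, i ≠ j → C (u i) (u j) = 0) →
      C (u i) (u k) * C (u j) (u l) - C (u i) (u l) * C (u j) (u k) = 0 := by
    intro C hC
    have e1 : C (u i) (u k) * C (u j) (u l) = 0 := by
      by_cases h3 : i = k
      · rw [hC j l (fun h4 => h1 ⟨h3, h4⟩), mul_zero]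
      · rw [hC i k h3, zero_mul]
    have e2 : C (u i) (u l) * C (u j) (u k) = 0 := by
      by_cases h3 : i = l
      · rw [hC j k (fun h4 => h2 ⟨h3, h4⟩), mul_zero]
      · rw [hC i l h3, zero_mul]
    rw [e1, e2]; ring
  have e1 := key (fun x y => inner ℝ x y) hi
  have e2 := key B hd
  unfold unitT
  rw [e1, e2]; ring

/-- the trace of a bilinear form does not depend on the orthonormal basis -/
theorem trace_indep {H : Submodule ℝ V} {n : ℕ} (b u : OrthonormalBasis (Fin n) ℝ H)
    {φ : V → V → ℝ} (h1 : ∀ x x' y, φ (x + x') y = φ x y + φ x' y)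
    (h2 : ∀ (t : ℝ) x y, φ (t • x) y = t * φ x y)
    (h3 : ∀ x y y', φ x (y + y') = φ x y + φ x y')
    (h4 : ∀ (t : ℝ) x y, φ x (t • y) = t * φ x y) :
    ∑ a, φ (b a) (b a) = ∑ i, φ (u i) (u i) := by
  classical
  have hl : ∀ (s : Finset (Fin n)) (c : Fin n → ℝ) (f : Fin n → V) (y : V),
      φ (∑ i ∈ s, c i • f i) y = ∑ i ∈ s, c i * φ (f i) y := by
    intro s c f y
    induction s using Finset.induction_on with
    | empty => have := h2 0 0 y; simpa using this
    | insert a s ha ih => rw [Finset.sum_insert ha, Finset.sum_insert ha, h1, h2, ih]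
  have hr : ∀ (s : Finset (Fin n)) (c : Fin n → ℝ) (f : Fin n → V) (y : V),
      φ y (∑ i ∈ s, c i • f i) = ∑ i ∈ s, c i * φ y (f i) := by
    intro s c f y
    induction s using Finset.induction_on with
    | empty => have := h4 0 y 0; simpa using this
    | insert a s ha ih => rw [Finset.sum_insert ha, Finset.sum_insert ha, h3, h4, ih]
  have hb : ∀ a, (b a : V) = ∑ i, inner ℝ (u i) (b a) • (u i : V) := by
    intro a
    conv_lhs => rw [← u.sum_repr' (b a)]
    rw [Submodule.coe_sum]
    rfl
  have e1 : ∀ a, φ (b a) (b a) =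
      ∑ i, ∑ j, inner ℝ (u i) (b a) * inner ℝ (u j) (b a) * φ (u i) (u j) := by
    intro a
    conv_lhs => rw [hb a]
    rw [hl]
    refine Finset.sum_congr rfl fun i _ => ?_
    rw [hr, Finset.mul_sum]
    exact Finset.sum_congr rfl fun j _ => by ring
  simp only [e1]
  rw [Finset.sum_comm]
  refine Finset.sum_congr rfl fun i _ => ?_
  rw [Finset.sum_comm]
  have e2 : ∀ j, ∑ a, inner ℝ (u i) (b a) * inner ℝ (u j) (b a) * φ (u i) (u j) =
      (if i = j then φ (u i) (u j) else 0) := by
    intro j
    rw [← Finset.sum_mul]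
    have : ∑ a, inner ℝ (u i) (b a) * inner ℝ (u j) (b a) = inner ℝ (u i) (u j) := by
      rw [← b.sum_inner_mul_inner (u i) (u j)]
      exact Finset.sum_congr rfl fun a _ => by rw [real_inner_comm (u j)]
    rw [this, orthonormal_iff_ite.mp u.orthonormal]
    split_ifs <;> simp
  simp only [e2, Finset.sum_ite_eq, Finset.mem_univ, if_true]

/-- In dimension four every curvature tensor is pure on a hyperplane (on each of them). -/
theorem four_pure (e : OrthonormalBasis (Fin 2 × Bool) ℝ V) {R : V → V → V → V → ℝ}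
    (hR : AlgCurv R) : PureOnHyperplane 2 R := by
  classical
  have hfin : FiniteDimensional ℝ V := e.toBasis.finiteDimensional_of_finite
  have hf := finrank_of e
  set H : Submodule ℝ V := (Submodule.span ℝ {e (0, false)})ᗮ with hH
  have hn : Module.finrank ℝ H = 3 := by
    haveI : Fact (Module.finrank ℝ V = 3 + 1) := ⟨by rw [hf]⟩
    exact Submodule.finrank_orthogonal_span_singleton (e.orthonormal.ne_zero _)
  let b : OrthonormalBasis (Fin 3) ℝ H :=
    (stdOrthonormalBasis ℝ H).reindex (finCongr hn)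
  have hB : SymBil (fun x y : V => ∑ a, R (b a) x (b a) y) := by
    have hs : ∀ z x y, R z x z y = R z y z x := fun z x y => hR.pair _ _ _ _
    refine ⟨fun x x' y => ?_, fun t x y => ?_, fun x y => ?_⟩
    · rw [← Finset.sum_add_distrib]
      refine Finset.sum_congr rfl fun a _ => ?_
      rw [hR.anti (x + x'), hR.anti x, hR.anti x', hR.add]; ring
    · rw [Finset.mul_sum]
      refine Finset.sum_congr rfl fun a _ => ?_
      rw [hR.anti (t • x), hR.anti x, hR.smul]; ring
    · exact Finset.sum_congr rfl fun a _ => hs _ _ _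
  obtain ⟨u, hu⟩ := exists_diag H hn hB
  have htr : ∀ x y : V, ∑ a, R (b a) x (b a) y = ∑ a, R (u a) x (u a) y := by
    intro x y
    refine trace_indep b u (φ := fun z z' => R z x z' y) ?_ ?_ ?_ ?_
    · intro z z' w; exact hR.add _ _ _ _ _
    · intro t z w; exact hR.smul _ _ _ _ _
    · intro w z z'
      rw [← hR.pair, hR.add, hR.pair w x z y, hR.pair w x z' y]
    · intro t w z
      rw [← hR.pair, hR.smul, hR.pair]
  have hself : ∀ x z w, R x x z w = 0 := fun x z w => by
    have := hR.anti x x z w; linarith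
  have hself' : ∀ x y z, R x y z z = 0 := fun x y z => by
    have := hR.a34 x y z z; linarith
  have hd : ∀ i j k : Fin 3, i ≠ j → i ≠ k → j ≠ k → R (u i) (u j) (u i) (u k) = 0 := by
    intro i j k h1 h2 h3
    have h4 := hu j k h3
    simp only [htr] at h4
    rw [Fin.sum_univ_three] at h4
    fin_cases i <;> fin_cases j <;> fin_cases k <;> simp_all
  refine ⟨fun i => (u i : V), ?_, ?_⟩
  · exact u.orthonormal.comp_linearIsometry (Submodule.subtypeₗᵢ _)
  intro i j k l h1 h2
  by_cases hij : i = j
  · subst hij; exact hself _ _ _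
  by_cases hkl : k = l
  · subst hkl; exact hself' _ _ _
  by_cases hik : i = k
  · subst hik
    exact hd i j l hij hkl (fun h => h1 ⟨rfl, h⟩)
  by_cases hil : i = l
  · subst hil
    rw [hR.a34]
    rw [hd i j k hij (fun h => hkl h.symm) (fun h => h2 ⟨rfl, h⟩), neg_zero]
  by_cases hjk : j = k
  · subst hjk
    rw [hR.anti]
    rw [hd j i l (fun h => hij h.symm) hkl hil, neg_zero]
  by_cases hjl : j = l
  · subst hjl
    rw [hR.anti, hR.a34]
    rw [hd j i k (fun h => hij h.symm) hjk hik, neg_zero, neg_zero]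
  exfalso
  omega

end Pool.Agent.R775.PH
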