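import Pool.Agent.W669.HD.Main

/-!
# A termwise comparison of two Gauss–Bonnet–Chern sums

`N` is a tensor in components which is pure outside of one index `o`; `N'` is a tensor with the same
relevant components whose components `o i k l` (distinct indices) vanish.
-/

set_option autoImplicit false

namespace Pool.Agent.R775.PH

open Pool.Agent.W666.GB Pool.Agent.W669.HD Finset

variable {m : ℕ}

/-- the symmetries of a form on bivectors, in components -/
structure Sy (N : T4 m) : Prop where
  a12 : ∀ i j k l, N j i k l = - N i j k l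
  a34 : ∀ i j k l, N i j l k = - N i j k l
  pair : ∀ i j k l, N k l i j = N i j k l

/-- the relation between the two tensors -/
structure Rel (N N' : T4 m) (o : Fin m × Bool) : Prop where
  pure : ∀ i j k l, i ≠ o → j ≠ o → k ≠ o → l ≠ o → ¬ (i = k ∧ j = l) → ¬ (i = l ∧ j = k) →
    N i j k l = 0
  nonneg : ∀ i j, 0 ≤ N i j i j
  h1 : ∀ i j k l, i ≠ o → j ≠ o → k ≠ o → l ≠ o → N' i j k l = N i j k l
  h2 : ∀ i k, i ≠ o → k ≠ o → N' o i k i = N o i k i
  h3 : ∀ i, N' o i o i = N o i o i
  h4 : ∀ i k l, i ≠ o → k ≠ o → l ≠ o → i ≠ k → i ≠ l → N' o i k l = 0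

theorem blk (π : Equiv.Perm (Fin m × Bool)) (c : Fin m)
    (h : ∀ β, (π (c, β)).1 = c) :
    (π (c, false) = (c, false) ∧ π (c, true) = (c, true)) ∨
      (π (c, false) = (c, true) ∧ π (c, true) = (c, false)) := by
  have h0 := h false
  have h1 := h true
  have hne : π (c, false) ≠ π (c, true) := fun h => by
    have := π.injective h
    simp at this
  rcases hf : π (c, false) with ⟨a, x⟩
  rcases ht : π (c, true) with ⟨b, y⟩
  rw [hf] at h0 hne
  rw [ht] at h1 hne
  simp only at h0 h1
  subst h0
  subst h1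
  cases x <;> cases y <;> simp_all

theorem pres (π : Equiv.Perm (Fin m × Bool)) (b0 b1 : Fin m)
    (hall : ∀ c, c ≠ b0 → c ≠ b1 → ∀ β, (π (c, β)).1 = c) (c : Fin m) (β : Bool)
    (hc : c = b0 ∨ c = b1) : (π (c, β)).1 = b0 ∨ (π (c, β)).1 = b1 := by
  by_contra hcon
  push Not at hcon
  obtain ⟨hd0, hd1⟩ := hcon
  have hb := blk π _ (hall _ hd0 hd1)
  rcases hd : π (c, β) with ⟨d, γ⟩
  rw [hd] at hb hd0 hd1
  simp only at hb hd0 hd1
  have : ∃ γ', π (d, γ') = (d, γ) := by
    rcases hb with ⟨h1, h2⟩ | ⟨h1, h2⟩ <;> cases γ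
    · exact ⟨_, h1⟩
    · exact ⟨_, h2⟩
    · exact ⟨_, h2⟩
    · exact ⟨_, h1⟩
  obtain ⟨γ', hγ⟩ := this
  have h3 := π.injective (hd.trans hγ.symm)
  simp only [Prod.mk.injEq] at h3
  rcases hc with hc | hc
  · exact hd0 (h3.1.symm.trans hc)
  · exact hd1 (h3.1.symm.trans hc)

section
variable {N N' : T4 m} {o : Fin m × Bool}

theorem Rel.share1 (hr : Rel N N' o) (hN : Sy N) (hN' : Sy N') (s p q : Fin m × Bool)
    (hs : s ≠ o) : N' s p s q = N s p s q := by
  by_cases hp : p = o
  · subst hp
    by_cases hq : q = p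
    · subst hq
      have := hr.h3 s
      rw [hN.a12 s q, hN.a34 _ _ s q] at this
      rw [hN'.a12 s q, hN'.a34 _ _ s q] at this
      linarith
    · have := hr.h2 s q hs hq
      rw [hN.a12 s p, hN.a34 _ _ s q] at this
      rw [hN'.a12 s p, hN'.a34 _ _ s q] at this
      linarith
  · by_cases hq : q = o
    · subst hq
      have := hr.h2 s p hs hp
      rw [← hN.pair, ← hN'.pair] at this
      rw [hN.a12 s p, hN.a34 _ _ s q] at this
      rw [hN'.a12 s p, hN'.a34 _ _ s q] at this
      linarith
    · exact hr.h1 _ _ _ _ hs hp hs hq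

theorem Rel.share (hr : Rel N N' o) (hN : Sy N) (hN' : Sy N') (i j k l s : Fin m × Bool)
    (hs : s ≠ o) (h1 : s = i ∨ s = j) (h2 : s = k ∨ s = l) : N' i j k l = N i j k l := by
  rcases h1 with h1 | h1 <;> rcases h2 with h2 | h2 <;> subst h1 <;> subst h2
  · exact hr.share1 hN hN' _ _ _ hs
  · have := hr.share1 hN hN' s j k hs
    rw [hN.a34 _ _ s k, hN'.a34 _ _ s k, this]
  · have := hr.share1 hN hN' s i l hs
    rw [hN.a12 s i, hN'.a12 s i, this]
  · have := hr.share1 hN hN' s i k hs
    rw [hN.a12 s i, hN'.a12 s i, hN.a34 _ _ s k, hN'.a34 _ _ s k, this]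

theorem Rel.fac (hr : Rel N N' o) (hN : Sy N) (hN' : Sy N') (π : Equiv.Perm (Fin m × Bool))
    (c : Fin m) (h : ∃ β, (π (c, β)).1 = c ∧ π (c, β) ≠ o) :
    N' (c, false) (c, true) (π (c, false)) (π (c, true)) =
      N (c, false) (c, true) (π (c, false)) (π (c, true)) := by
  obtain ⟨β, h1, h2⟩ := h
  refine hr.share hN hN' _ _ _ _ (π (c, β)) h2 ?_ ?_
  · rcases hd : π (c, β) with ⟨d, γ⟩
    rw [hd] at h1
    simp only at h1
    subst h1
    cases γ
    · exact Or.inl rfl
    · exact Or.inr rfl
  · cases β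
    · exact Or.inl rfl
    · exact Or.inr rfl

theorem sn_sq (π : Equiv.Perm (Fin m × Bool)) : sn π * sn π = 1 := by
  rw [← sn_mul]
  rcases Int.units_eq_one_or (Equiv.Perm.sign π) with h | h <;> simp [sn, h]

/-- the sign of a permutation which preserves the blocks -/
theorem sn_blocks (κ : Equiv.Perm (Fin m × Bool)) (h : ∀ c β, (κ (c, β)).1 = c) :
    sn κ = ∏ c : Fin m, (if κ (c, false) = (c, false) then (1 : ℝ) else -1) := by
  classical
  set f : Fin m → Equiv.Perm Bool := fun c =>
    if κ (c, false) = (c, false) then 1 else Equiv.swap false true with hf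
  have h1 : κ = Equiv.prodCongrRight f := by
    ext1 ⟨c, β⟩
    rw [Equiv.prodCongrRight_apply]
    rcases blk κ c (h c) with ⟨h2, h3⟩ | ⟨h2, h3⟩
    · have : f c = 1 := by simp [hf, h2]
      rw [this]
      cases β
      · simpa using h2
      · simpa using h3
    · have : f c = Equiv.swap false true := by simp [hf, h2]
      rw [this]
      cases β
      · simpa using h2
      · simpa using h3
  have h2 : Equiv.Perm.sign κ = ∏ c, Equiv.Perm.sign (f c) := by
    rw [h1, Equiv.Perm.sign_prodCongrRight]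
  rw [sn, h2]
  push_cast
  refine Finset.prod_congr rfl fun c _ => ?_
  by_cases hc : κ (c, false) = (c, false)
  · simp [hf, hc]
  · simp [hf, hc, Equiv.Perm.sign_swap]

theorem swap_case (hN : Sy N) (h0 : ∀ i j, 0 ≤ N i j i j) (π : Equiv.Perm (Fin m × Bool))
    (b0 b1 : Fin m) (hb : b0 ≠ b1)
    (hall : ∀ c, c ≠ b0 → c ≠ b1 → ∀ β, (π (c, β)).1 = c)
    (hp0 : ∀ β, (π (b0, β)).1 = b1) (hp1 : ∀ β, (π (b1, β)).1 = b0) :
    0 ≤ sn π * ∏ b, N (b, false) (b, true) (π (b, false)) (π (b, true)) := by
  classical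
  set s : Equiv.Perm (Fin m × Bool) := Equiv.prodCongrLeft (fun _ : Bool => Equiv.swap b0 b1)
    with hs
  have hsa : ∀ c β, s (c, β) = (Equiv.swap b0 b1 c, β) := fun c β => rfl
  have hss : sn s = 1 := by
    have : Equiv.Perm.sign s = ∏ _β : Bool, Equiv.Perm.sign (Equiv.swap b0 b1) := by
      rw [hs, Equiv.Perm.sign_prodCongrLeft]
    rw [sn, this, Equiv.Perm.sign_swap hb]
    simp
  set κ : Equiv.Perm (Fin m × Bool) := s * π with hκ
  have hπ : π = s * κ := by
    ext1 ⟨c, β⟩
    simp only [hκ, Equiv.Perm.mul_apply]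
    rcases π (c, β) with ⟨d, γ⟩
    rw [hsa, hsa, Equiv.swap_apply_self]
  have hκb : ∀ c β, (κ (c, β)).1 = c := by
    intro c β
    rw [hκ, Equiv.Perm.mul_apply]
    have h2 : (s (π (c, β))).1 = Equiv.swap b0 b1 (π (c, β)).1 := rfl
    rw [h2]
    by_cases h3 : c = b0
    · subst h3; rw [hp0, Equiv.swap_apply_right]
    · by_cases h4 : c = b1
      · subst h4; rw [hp1, Equiv.swap_apply_left]
      · rw [hall c h3 h4, Equiv.swap_apply_of_ne_of_ne h3 h4]
  have hsn : sn π = ∏ c : Fin m, (if κ (c, false) = (c, false) then (1 : ℝ) else -1) := by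
    rw [hπ, sn_mul, hss, one_mul, sn_blocks κ hκb]
  have hfac : ∀ c, (if κ (c, false) = (c, false) then (1 : ℝ) else -1) *
      N (c, false) (c, true) (π (c, false)) (π (c, true)) =
      N (c, false) (c, true) (Equiv.swap b0 b1 c, false) (Equiv.swap b0 b1 c, true) := by
    intro c
    have e1 : π (c, false) = s (κ (c, false)) := by rw [← Equiv.Perm.mul_apply, ← hπ]
    have e2 : π (c, true) = s (κ (c, true)) := by rw [← Equiv.Perm.mul_apply, ← hπ]
    rcases blk κ c (hκb c) with ⟨h2, h3⟩ | ⟨h2, h3⟩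
    · rw [if_pos h2, e1, e2, h2, h3, hsa, hsa, one_mul]
    · rw [if_neg (by rw [h2]; simp), e1, e2, h2, h3, hsa, hsa, hN.a34]
      ring
  rw [hsn, ← Finset.prod_mul_distrib]
  simp only [hfac]
  rw [← Finset.mul_prod_erase univ _ (Finset.mem_univ b0),
    ← Finset.mul_prod_erase (univ.erase b0) _ (Finset.mem_erase.mpr ⟨hb.symm, Finset.mem_univ b1⟩),
    Equiv.swap_apply_left, Equiv.swap_apply_right, hN.pair (b0, false) (b0, true), ← mul_assoc]
  refine mul_nonneg (mul_self_nonneg _) (Finset.prod_nonneg fun c hc => ?_)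
  simp only [Finset.mem_erase, Finset.mem_univ, and_true] at hc
  rw [Equiv.swap_apply_of_ne_of_ne hc.2 hc.1]
  exact h0 _ _

/-- The comparison of the terms. -/
theorem Rel.term (hr : Rel N N' o) (hN : Sy N) (hN' : Sy N') (π : Equiv.Perm (Fin m × Bool)) :
    sn π * ∏ b, N' (b, false) (b, true) (π (b, false)) (π (b, true)) ≤
      sn π * ∏ b, N (b, false) (b, true) (π (b, false)) (π (b, true)) := by
  classical
  obtain ⟨b0, β0⟩ := o
  obtain ⟨⟨b1, β1⟩, hx1⟩ : ∃ x, π x = (b0, β0) := π.surjective _
  -- the elements different from `o`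
  have hno : ∀ c β, c ≠ b1 → π (c, β) ≠ (b0, β0) := fun c β hc h => by
    have := π.injective (h.trans hx1.symm)
    simp only [Prod.mk.injEq] at this
    exact hc this.1
  by_cases hall : ∀ c, c ≠ b0 → c ≠ b1 → ∀ β, (π (c, β)).1 = c
  swap
  · push Not at hall
    obtain ⟨c, hc0, hc1, β, hβ⟩ := hall
    have hnm1 : ¬ ((c, false) = π (c, false) ∧ (c, true) = π (c, true)) := by
      rintro ⟨h1, h2⟩
      apply hβ
      cases β
      · rw [← h1]
      · rw [← h2]
    have hnm2 : ¬ ((c, false) = π (c, true) ∧ (c, true) = π (c, false)) := by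
      rintro ⟨h1, h2⟩
      apply hβ
      cases β
      · rw [← h2]
      · rw [← h1]
    have hne : ∀ γ, (c, γ) ≠ (b0, β0) := fun γ h => hc0 (by simpa using congrArg Prod.fst h)
    have hN0 : N (c, false) (c, true) (π (c, false)) (π (c, true)) = 0 :=
      hr.pure _ _ _ _ (hne _) (hne _) (hno _ _ hc1) (hno _ _ hc1) hnm1 hnm2
    have hN'0 : N' (c, false) (c, true) (π (c, false)) (π (c, true)) = 0 := by
      rw [hr.h1 _ _ _ _ (hne _) (hne _) (hno _ _ hc1) (hno _ _ hc1), hN0]
    rw [Finset.prod_eq_zero (Finset.mem_univ c) hN'0, Finset.prod_eq_zero (Finset.mem_univ c) hN0]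
  · by_cases hB : ∃ β, (π (b0, β)).1 = b0 ∧ π (b0, β) ≠ (b0, β0)
    · have hc : ∀ c, ∃ β, (π (c, β)).1 = c ∧ π (c, β) ≠ (b0, β0) := by
        intro c
        by_cases hc0 : c = b0
        · subst hc0; exact hB
        by_cases hc1 : c = b1
        · subst hc1
          refine ⟨!β1, ?_, ?_⟩
          · rcases pres π b0 c hall c (!β1) (Or.inr rfl) with h | h
            swap
            · exact h
            exfalso
            obtain ⟨β, h1, h2⟩ := hB
            have h3 : π (c, !β1) = π (b0, β) := by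
              have h4 : π (c, !β1) ≠ (b0, β0) := fun h5 => by
                have := π.injective (h5.trans hx1.symm)
                simp at this
              rcases hz : π (c, !β1) with ⟨d, γ⟩
              rcases hw : π (b0, β) with ⟨d', γ'⟩
              rw [hz] at h h4
              rw [hw] at h1 h2
              simp only at h h1
              subst h
              subst h1
              cases γ <;> cases γ' <;> cases β0 <;> simp_all
            have := π.injective h3
            simp only [Prod.mk.injEq] at this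
            exact hc0 this.1
          · intro h5
            have := π.injective (h5.trans hx1.symm)
            simp at this
        · refine ⟨false, hall c hc0 hc1 false, hno _ _ hc1⟩
      refine le_of_eq ?_
      congr 1
      exact Finset.prod_congr rfl fun c _ => hr.fac hN hN' π c (hc c)
    · push Not at hB
      -- the blocks are different
      have hb : b0 ≠ b1 := by
        intro hb
        subst hb
        have h1 : ∀ β, (π (b0, β)).1 = b0 := fun β => by
          rcases pres π b0 b0 hall b0 β (Or.inl rfl) with h | h <;> exact h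
        have h2 := hB false (h1 false)
        have h3 := hB true (h1 true)
        have := π.injective (h2.trans h3.symm)
        simp at this
      have hp0 : ∀ β, (π (b0, β)).1 = b1 := by
        intro β
        rcases pres π b0 b1 hall b0 β (Or.inl rfl) with h | h
        · exact absurd (hB β h) (hno _ _ hb)
        · exact h
      have hp1 : ∀ β, (π (b1, β)).1 = b0 := by
        intro β
        rcases pres π b0 b1 hall b1 β (Or.inr rfl) with h | h
        · exact h
        exfalso
        -- block `b1` is covered by `π (b0, ·)`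
        have : ∃ γ', π (b0, γ') = π (b1, β) := by
          have h0 := hp0 false
          have h1 := hp0 true
          have hne : π (b0, false) ≠ π (b0, true) := fun h => by
            have := π.injective h
            simp at this
          rcases hz : π (b1, β) with ⟨d, γ⟩
          rcases hf : π (b0, false) with ⟨d0, γ0⟩
          rcases ht : π (b0, true) with ⟨d1, γ1⟩
          rw [hz] at h
          rw [hf] at h0 hne
          rw [ht] at h1 hne
          simp only at h h0 h1
          subst h
          subst h0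
          subst h1
          by_cases hg : γ0 = γ
          · exact ⟨false, by rw [hf, hg]⟩
          · refine ⟨true, ?_⟩
            rw [ht]
            cases γ <;> cases γ0 <;> cases γ1 <;> simp_all
        obtain ⟨γ', hγ⟩ := this
        have := π.injective hγ
        simp only [Prod.mk.injEq] at this
        exact hb this.1
      have hz : N' (b0, false) (b0, true) (π (b0, false)) (π (b0, true)) = 0 := by
        have hk : ∀ β γ, π (b0, β) ≠ (b0, γ) := fun β γ h => hb (by rw [← hp0 β, h])
        cases β0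
        · exact hr.h4 _ _ _ (by simp) (hk _ _) (hk _ _) (hk _ _).symm (hk _ _).symm
        · rw [hN'.a12 (b0, true) (b0, false),
            hr.h4 _ _ _ (by simp) (hk _ _) (hk _ _) (hk _ _).symm (hk _ _).symm, neg_zero]
      rw [Finset.prod_eq_zero (Finset.mem_univ b0) hz, mul_zero]
      exact swap_case hN hr.nonneg π b0 b1 hb hall hp0 hp1

end

/-- The comparison of the sums. -/
theorem gm_mono {N N' : T4 m} {o : Fin m × Bool} (hr : Rel N N' o) (hN : Sy N) (hN' : Sy N') :
    gm (fun _ : Fin m => N') ≤ gm (fun _ : Fin m => N) := by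
  classical
  unfold gm
  refine Finset.sum_le_sum fun σ _ => ?_
  have hre : ∀ K : T4 m, ∑ τ : Equiv.Perm (Fin m × Bool), sn σ * sn τ *
      ∏ b, K (σ (b, false)) (σ (b, true)) (τ (b, false)) (τ (b, true)) =
      ∑ π : Equiv.Perm (Fin m × Bool), sn π *
        ∏ b, K (σ (b, false)) (σ (b, true)) (σ (π (b, false))) (σ (π (b, true))) := by
    intro K
    rw [← Equiv.sum_comp (Equiv.mulLeft σ)]
    refine Finset.sum_congr rfl fun π _ => ?_
    simp only [Equiv.coe_mulLeft, Equiv.Perm.mul_apply]
    rw [sn_mul, ← mul_assoc (sn σ) (sn σ), sn_sq, one_mul]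
  rw [hre, hre]
  refine Finset.sum_le_sum fun π _ => ?_
  have hi : ∀ i, i ≠ σ⁻¹ o → σ i ≠ o := fun i h h' => h (by rw [← h']; simp)
  have hr' : Rel (fun i j k l => N (σ i) (σ j) (σ k) (σ l))
      (fun i j k l => N' (σ i) (σ j) (σ k) (σ l)) (σ⁻¹ o) := by
    refine ⟨?_, ?_, ?_, ?_, ?_, ?_⟩
    · intro i j k l h1 h2 h3 h4 h5 h6
      exact hr.pure _ _ _ _ (hi _ h1) (hi _ h2) (hi _ h3) (hi _ h4)
        (fun h => h5 ⟨σ.injective h.1, σ.injective h.2⟩)
        (fun h => h6 ⟨σ.injective h.1, σ.injective h.2⟩)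
    · intro i j; exact hr.nonneg _ _
    · intro i j k l h1 h2 h3 h4
      exact hr.h1 _ _ _ _ (hi _ h1) (hi _ h2) (hi _ h3) (hi _ h4)
    · intro i k h1 h2
      simpa using hr.h2 _ _ (hi _ h1) (hi _ h2)
    · intro i
      simpa using hr.h3 (σ i)
    · intro i k l h1 h2 h3 h4 h5
      simpa using hr.h4 _ _ _ (hi _ h1) (hi _ h2) (hi _ h3) (fun h => h4 (σ.injective h))
        (fun h => h5 (σ.injective h))
  exact hr'.term ⟨fun _ _ _ _ => hN.a12 _ _ _ _, fun _ _ _ _ => hN.a34 _ _ _ _,
    fun _ _ _ _ => hN.pair _ _ _ _⟩ ⟨fun _ _ _ _ => hN'.a12 _ _ _ _,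
    fun _ _ _ _ => hN'.a34 _ _ _ _, fun _ _ _ _ => hN'.pair _ _ _ _⟩ π

end Pool.Agent.R775.PH
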