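import Pool.Agent.R775.PH.Bound

/-!
# Curvature tensors which are pure on a hyperplane
-/

set_option autoImplicit false

namespace Pool.Agent.R775.PH

open Pool.Agent.W666.GB Pool.Agent.W669.HD Finset

variable {V : Type} [NormedAddCommGroup V] [InnerProductSpace ℝ V]

/-- all sectional curvatures are at most `-δ` -/
def SecLe (δ : ℝ) (R : V → V → V → V → ℝ) : Prop :=
  ∀ x y : V, R x y x y ≤ -(δ * unitT x y x y)

/-- `R` is pure on a hyperplane: for some orthonormal vectors `u i`, one less than the dimension `2 m`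
of `V`, the bivectors `u i ∧ u j` diagonalise the restriction of the curvature operator to their
span. -/
def PureOnHyperplane (m : ℕ) (R : V → V → V → V → ℝ) : Prop :=
  ∃ u : Fin (2 * m - 1) → V, Orthonormal ℝ u ∧
    ∀ i j k l, ¬ (i = k ∧ j = l) → ¬ (i = l ∧ j = k) → R (u i) (u j) (u k) (u l) = 0

/-- `R` is pure on a hyperplane, and the sectional curvatures of the planes which contain one of the
vectors `u i` are at most `-δ`. -/
def PureLe (m : ℕ) (δ : ℝ) (R : V → V → V → V → ℝ) : Prop :=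
  ∃ u : Fin (2 * m - 1) → V, Orthonormal ℝ u ∧
    (∀ i j k l, ¬ (i = k ∧ j = l) → ¬ (i = l ∧ j = k) → R (u i) (u j) (u k) (u l) = 0) ∧
    ∀ i x, R x (u i) x (u i) ≤ -(δ * unitT x (u i) x (u i))

variable {m : ℕ}

theorem PureOnHyperplane.le {R : V → V → V → V → ℝ} (h : PureOnHyperplane m R) {δ : ℝ}
    (hs : SecLe δ R) : PureLe m δ R := by
  obtain ⟨u, hu, hp⟩ := h
  exact ⟨u, hu, hp, fun i x => hs x (u i)⟩

theorem curv_sum1 {R : V → V → V → V → ℝ} (hR : AlgCurv R) {ι : Type*} (s : Finset ι)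
    (c : ι → ℝ) (f : ι → V) (y z w : V) :
    R (∑ j ∈ s, c j • f j) y z w = ∑ j ∈ s, c j * R (f j) y z w := by
  classical
  induction s using Finset.induction_on with
  | empty =>
    have := hR.smul 0 0 y z w
    simpa using this
  | insert a s ha ih =>
    rw [Finset.sum_insert ha, Finset.sum_insert ha, hR.add, hR.smul, ih]

theorem curv_sum3 {R : V → V → V → V → ℝ} (hR : AlgCurv R) {ι : Type*} (s : Finset ι)
    (c : ι → ℝ) (f : ι → V) (x y w : V) :
    R x y (∑ j ∈ s, c j • f j) w = ∑ j ∈ s, c j * R x y (f j) w := by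
  rw [← hR.pair, curv_sum1 hR]
  exact Finset.sum_congr rfl fun j _ => by rw [hR.pair]

theorem unit_alg (δ : ℝ) : AlgCurv (fun x y z w : V => δ * unitT x y z w) := unit_curv δ

theorem jac_of_sec (f : OrthonormalBasis (Fin m × Bool) ℝ V) {R : V → V → V → V → ℝ}
    (hR : AlgCurv R) {δ : ℝ} (o : Fin m × Bool)
    (hs : ∀ i, i ≠ o → ∀ x, R x (f i) x (f i) ≤ -(δ * unitT x (f i) x (f i))) :
    JacNonneg (fun i j k l => cp f (negT R) i j k l - δ * unitCurv i j k l) o := by
  intro i hi c
  have h := hs i hi (∑ j, c j • f j)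
  have h1 : R (∑ j, c j • f j) (f i) (∑ j, c j • f j) (f i) =
      ∑ j, ∑ k, c j * c k * R (f j) (f i) (f k) (f i) := by
    rw [curv_sum1 hR]
    refine Finset.sum_congr rfl fun j _ => ?_
    rw [curv_sum3 hR, Finset.mul_sum]
    exact Finset.sum_congr rfl fun k _ => by ring
  have hU := unit_alg (V := V) δ
  have h2 : δ * unitT (∑ j, c j • f j) (f i) (∑ j, c j • f j) (f i) =
      ∑ j, ∑ k, c j * c k * (δ * unitCurv j i k i) := by
    have e1 := curv_sum1 hU univ c f (f i) (∑ j, c j • f j) (f i)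
    try simp only at e1
    rw [e1]
    refine Finset.sum_congr rfl fun j _ => ?_
    have e2 := curv_sum3 hU univ c f (f j) (f i) (f i)
    try simp only at e2
    rw [e2, Finset.mul_sum]
    refine Finset.sum_congr rfl fun k _ => ?_
    rw [cp_unit]; ring
  rw [h1, h2] at h
  have h3 : ∑ j, ∑ k, c j * c k * (cp f (negT R) j i k i - δ * unitCurv j i k i) =
      -(∑ j, ∑ k, c j * c k * R (f j) (f i) (f k) (f i)) -
        ∑ j, ∑ k, c j * c k * (δ * unitCurv j i k i) := by
    rw [← Finset.sum_neg_distrib, ← Finset.sum_sub_distrib]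
    refine Finset.sum_congr rfl fun j _ => ?_
    rw [← Finset.sum_neg_distrib, ← Finset.sum_sub_distrib]
    refine Finset.sum_congr rfl fun k _ => ?_
    simp only [cp, negT]; ring
  rw [h3]
  linarith

theorem sy_cp (f : OrthonormalBasis (Fin m × Bool) ℝ V) {R : V → V → V → V → ℝ}
    (hR : AlgCurv R) : Sy (cp f (negT R)) where
  a12 i j k l := by simp only [cp, negT]; rw [hR.anti]
  a34 i j k l := by simp only [cp, negT]; rw [hR.a34]
  pair i j k l := by simp only [cp, negT]; rw [hR.pair]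

/-- an adapted basis -/
theorem exists_basis {n : ℕ} (e : OrthonormalBasis (Fin (n + 1) × Bool) ℝ V)
    (u : Fin (2 * (n + 1) - 1) → V) (hu : Orthonormal ℝ u) :
    ∃ (f : OrthonormalBasis (Fin (n + 1) × Bool) ℝ V) (o : Fin (n + 1) × Bool)
      (g : Fin (n + 1) × Bool → Fin (2 * (n + 1) - 1)),
      (∀ x, x ≠ o → f x = u (g x)) ∧ ∀ x y, x ≠ o → y ≠ o → g x = g y → x = y := by
  classical
  haveI : FiniteDimensional ℝ V := e.toBasis.finiteDimensional_of_finite
  have hc : Fintype.card (Fin (n + 1) × Bool) = Fintype.card (Option (Fin (2 * (n + 1) - 1))) := by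
    simp only [Fintype.card_prod, Fintype.card_fin, Fintype.card_bool, Fintype.card_option]
    omega
  let φ : Fin (n + 1) × Bool ≃ Option (Fin (2 * (n + 1) - 1)) := Fintype.equivOfCardEq hc
  have hpos : 0 < 2 * (n + 1) - 1 := by omega
  let g : Fin (n + 1) × Bool → Fin (2 * (n + 1) - 1) := fun x => (φ x).getD ⟨0, hpos⟩
  let o := φ.symm none
  have hφ : ∀ x, x ≠ o → φ x = some (g x) := by
    intro x hx
    rcases h : φ x with _ | y
    · exact absurd ((Equiv.symm_apply_eq φ).mpr h.symm).symm hx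
    · simp [g, h]
  have hinj : ∀ x y, x ≠ o → y ≠ o → g x = g y → x = y := by
    intro x y hx hy hxy
    apply φ.injective
    rw [hφ x hx, hφ y hy, hxy]
  have hcard : Module.finrank ℝ V = Fintype.card (Fin (n + 1) × Bool) := by
    rw [Module.finrank_eq_card_basis e.toBasis]
  have hv : Orthonormal ℝ ((({x | x ≠ o} : Set (Fin (n + 1) × Bool))).domRestrict
      (fun x => u (g x))) := by
    have : (({x | x ≠ o} : Set (Fin (n + 1) × Bool))).domRestrict (fun x => u (g x)) =
        u ∘ (fun x : ({x | x ≠ o} : Set (Fin (n + 1) × Bool)) => g x) := rfl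
    rw [this]
    exact hu.comp _ fun x y hxy => Subtype.ext (hinj _ _ x.2 y.2 hxy)
  obtain ⟨f, hf⟩ := hv.exists_orthonormalBasis_extension_of_card_eq hcard
  exact ⟨f, o, g, fun x hx => hf x hx, hinj⟩

theorem round_eq (m : ℕ) (δ : ℝ) : roundGB m δ = 1 / ((8 * Real.pi) ^ m * m.factorial) *
    (2 ^ m * (δ ^ m * (2 * m).factorial)) := by
  have hπ := Real.pi_pos
  unfold roundGB
  have : (8 * Real.pi) ^ m = 2 ^ m * (4 * Real.pi) ^ m := by
    rw [← mul_pow]; congr 1; ring
  rw [this]
  field_simp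

/-- **The pointwise theorem.** -/
theorem pure_bound (e : OrthonormalBasis (Fin m × Bool) ℝ V) {R : V → V → V → V → ℝ}
    (hR : AlgCurv R) {δ : ℝ} (hδ : 0 ≤ δ) (hp : PureLe m δ R) :
    roundGB m δ ≤ (-1) ^ m * gbc e R := by
  classical
  have hπ := Real.pi_pos
  rcases m with _ | n
  · rw [gbc_eq, round_eq]
    refine mul_le_mul_of_nonneg_left ?_ (by positivity)
    have h1 := gm_squares (m := 0) (le_refl (0 : ℝ)) (κ := Fin 0) (fun _ _ _ => 0)
    refine le_trans (by simp) (h1.trans (le_of_eq ?_))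
    congr 1
    funext b
    exact b.elim0
  · obtain ⟨u, hu, hpu, hle⟩ := hp
    obtain ⟨f, o, g, hf, hg⟩ := exists_basis e u hu
    have hb := Pool.Agent.W688.HD.bas (n + 1) V e f R hR
    rw [hb, gbc_eq, round_eq]
    refine mul_le_mul_of_nonneg_left ?_ (by positivity)
    refine comp_bound (o := o) hδ (sy_cp f hR) ?_ (jac_of_sec f hR o fun i hi x => by
      rw [hf i hi]; exact hle _ _)
    intro i j k l h1 h2 h3 h4 h5 h6
    simp only [cp, negT]
    rw [hf i h1, hf j h2, hf k h3, hf l h4, hpu, neg_zero]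
    · exact fun h => h5 ⟨hg _ _ h1 h3 h.1, hg _ _ h2 h4 h.2⟩
    · exact fun h => h6 ⟨hg _ _ h1 h4 h.1, hg _ _ h2 h3 h.2⟩

end Pool.Agent.R775.PH
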