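import Pool.Agent.R775.PH.Comb

/-!
# The squares
-/

set_option autoImplicit false

namespace Pool.Agent.R775.PH

open Pool.Agent.W666.GB Pool.Agent.W669.HD Finset

variable {m : ℕ}

/-- sums of squares and constant curvature -/
theorem gm_squares {δ : ℝ} (hδ : 0 ≤ δ) {κ : Type} [Fintype κ]
    (ν : κ → Fin m × Bool → Fin m × Bool → ℝ) :
    2 ^ m * (δ ^ m * (2 * m).factorial) ≤
      gm (fun _ : Fin m => (fun i j k l => δ * unitCurv i j k l + ∑ a, ν a i j * ν a k l : T4 m)) := by
  classical
  rw [gm_add (m := m) (fun i j k l => δ * unitCurv i j k l)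
    (fun i j k l => ∑ a, ν a i j * ν a k l), ← unit_gm]
  have h0 : ∀ S ∈ (univ : Finset (Fin m)).powerset,
      0 ≤ mix (m := m) (fun i j k l => δ * unitCurv i j k l)
        (fun i j k l => ∑ a, ν a i j * ν a k l) S := fun S _ =>
    mix_nonneg (κ₂ := κ) (ur δ) (unit_squares hδ) ν (fun _ _ _ _ => rfl) S
  have h1 := Finset.single_le_sum h0 (Finset.mem_powerset.mpr (Finset.Subset.refl univ))
  refine le_trans (le_of_eq ?_) h1
  unfold mix
  simp only [Finset.mem_univ, if_true]

section
variable (M : T4 m) (o : Fin m × Bool)

/-- the weight of a pair -/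
def kk (p q : Fin m × Bool) : ℝ := M p q p q

/-- the shift of the vector `e_p` in the pair `p, q` -/
noncomputable def ss (p q : Fin m × Bool) : ℝ := M o q p q / kk M p q

/-- the components of `e_p + s_{pq} e_o` -/
noncomputable def vv (p q i : Fin m × Bool) : ℝ :=
  (if i = p then 1 else 0) + ss M o p q * (if i = o then 1 else 0)

/-- the bivector `(e_p + s_{pq} e_o) ∧ (e_q + s_{qp} e_o)` -/
noncomputable def om (p q i j : Fin m × Bool) : ℝ :=
  vv M o p q i * vv M o q p j - vv M o p q j * vv M o q p i

/-- the remaining weight of `e_o ∧ e_q` -/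
noncomputable def rr (q : Fin m × Bool) : ℝ :=
  M o q o q - ∑ p, (if p = o ∨ p = q then 0 else kk M p q * ss M o p q ^ 2)

/-- the square roots -/
noncomputable def nu : ((Fin m × Bool) × (Fin m × Bool)) ⊕ (Fin m × Bool) →
    Fin m × Bool → Fin m × Bool → ℝ
  | Sum.inl pq, i, j => if pq.1 = o ∨ pq.2 = o ∨ pq.1 = pq.2 then 0 else
      Real.sqrt (kk M pq.1 pq.2 / 2) * om M o pq.1 pq.2 i j
  | Sum.inr q, i, j => if q = o then 0 else
      Real.sqrt (rr M o q) * ((if i = o then 1 else 0) * (if j = q then 1 else 0) -
        (if j = o then 1 else 0) * (if i = q then 1 else 0))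

/-- the sum of the squares -/
noncomputable def PP (i j k l : Fin m × Bool) : ℝ := ∑ a, nu M o a i j * nu M o a k l

variable {M o}

theorem aux1 {t k : ℝ} (h : t * t = k) (A B : ℝ) : t * A * (t * B) = k * A * B := by
  rw [← h]; ring

theorem om_swap (p q i j : Fin m × Bool) : om M o q p i j = - om M o p q i j := by
  unfold om; ring

theorem om_anti (p q i j : Fin m × Bool) : om M o p q j i = - om M o p q i j := by
  unfold om; ring

theorem nu_anti (a) (i j : Fin m × Bool) : nu M o a j i = - nu M o a i j := by
  rcases a with ⟨p, q⟩ | q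
  · simp only [nu]
    split_ifs
    · simp
    · rw [om_anti]; ring
  · simp only [nu]
    split_ifs <;> ring

theorem PP_sy : Sy (PP M o) where
  a12 i j k l := by
    simp only [PP, nu_anti _ i j, neg_mul, Finset.sum_neg_distrib]
  a34 i j k l := by
    simp only [PP, nu_anti _ k l, mul_neg, Finset.sum_neg_distrib]
  pair i j k l := by
    simp only [PP]
    exact Finset.sum_congr rfl fun a _ => mul_comm _ _

theorem unit_sy (δ : ℝ) : Sy (fun i j k l => δ * unitCurv i j k l : T4 m) where
  a12 i j k l := by simp only [unitCurv]; ring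
  a34 i j k l := by simp only [unitCurv]; ring
  pair i j k l := by
    simp only [unitCurv, eq_comm (a := k) (b := i), eq_comm (a := l) (b := j),
      eq_comm (a := k) (b := j), eq_comm (a := l) (b := i)]
    ring

theorem om_off {p q c d : Fin m × Bool} (hc : c ≠ o) (hd : d ≠ o) :
    om M o p q c d = (if c = p then 1 else 0) * (if d = q then 1 else 0) -
      (if d = p then 1 else 0) * (if c = q then 1 else 0) := by
  simp only [om, vv, if_neg hc, if_neg hd, mul_zero, add_zero]

theorem PP_off (hM : Sy M) (hk : ∀ p q, p ≠ o → q ≠ o → 0 ≤ kk M p q)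
    {a b c d : Fin m × Bool} (hc : c ≠ o) (hd : d ≠ o) :
    PP M o a b c d = if c = d then 0 else kk M c d * om M o c d a b := by
  classical
  unfold PP
  rw [Fintype.sum_sum_type]
  have h1 : ∑ q : Fin m × Bool, nu M o (Sum.inr q) a b * nu M o (Sum.inr q) c d = 0 := by
    refine Finset.sum_eq_zero fun q _ => ?_
    simp only [nu, if_neg hc, if_neg hd, zero_mul, sub_zero, mul_zero]
    split_ifs <;> simp
  rw [h1, add_zero, Fintype.sum_prod_type]
  have h2 : ∀ p q : Fin m × Bool, nu M o (Sum.inl (p, q)) a b * nu M o (Sum.inl (p, q)) c d =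
      (if p = c ∧ q = d then (if c = d then 0 else kk M c d / 2 * om M o c d a b) else 0) +
      (if p = d ∧ q = c then (if c = d then 0 else - (kk M d c / 2 * om M o d c a b)) else 0) := by
    intro p q
    simp only [nu]
    by_cases hpq : p = o ∨ q = o ∨ p = q
    · rw [if_pos hpq, if_pos hpq, mul_zero]
      rcases hpq with h | h | h
      · rw [if_neg (by rintro ⟨h', -⟩; exact hc (h'.symm.trans h)),
          if_neg (by rintro ⟨h', -⟩; exact hd (h'.symm.trans h)), add_zero]
      · rw [if_neg (by rintro ⟨-, h'⟩; exact hd (h'.symm.trans h)),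
          if_neg (by rintro ⟨-, h'⟩; exact hc (h'.symm.trans h)), add_zero]
      · subst h
        by_cases hcd : c = d
        · simp [hcd]
        · rw [if_neg (by rintro ⟨h1, h2⟩; exact hcd (h1.symm.trans h2)),
            if_neg (by rintro ⟨h1, h2⟩; exact hcd (h2.symm.trans h1)), add_zero]
    · push Not at hpq
      obtain ⟨hp, hq, hpq'⟩ := hpq
      have hn : ¬ (p = o ∨ q = o ∨ p = q) := by push Not; exact ⟨hp, hq, hpq'⟩
      rw [if_neg hn, if_neg hn, om_off hc hd]
      have hs : Real.sqrt (kk M p q / 2) * Real.sqrt (kk M p q / 2) = kk M p q / 2 :=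
        Real.mul_self_sqrt (by have := hk p q hp hq; positivity)
      have e1 : Real.sqrt (kk M p q / 2) * om M o p q a b *
          (Real.sqrt (kk M p q / 2) * ((if c = p then 1 else 0) * (if d = q then 1 else 0) -
            (if d = p then 1 else 0) * (if c = q then 1 else 0))) =
          kk M p q / 2 * om M o p q a b * ((if c = p then 1 else 0) * (if d = q then 1 else 0) -
            (if d = p then 1 else 0) * (if c = q then 1 else 0)) := aux1 hs _ _
      rw [e1]
      by_cases h3 : p = c
      · subst h3
        by_cases h4 : q = d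
        · subst h4
          simp [hpq', Ne.symm hpq']
        · have h4' : d ≠ q := fun h => h4 h.symm
          simp [h4, h4', hpq']
          intro _ h; exact absurd h.symm hpq'
      · have h3' : c ≠ p := fun h => h3 h.symm
        by_cases h4 : p = d
        · subst h4
          by_cases h5 : q = c
          · subst h5
            simp [hpq', h3, h3']
          · have h5' : c ≠ q := fun h => h5 h.symm
            simp [h3, h3', h5, h5']
        · have h4' : d ≠ p := fun h => h4 h.symm
          simp [h3, h3', h4, h4']
  simp only [h2]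
  simp only [Finset.sum_add_distrib]
  have h3 : ∀ (x y : Fin m × Bool) (A : ℝ),
      ∑ p : Fin m × Bool, ∑ q : Fin m × Bool, (if p = x ∧ q = y then A else 0) = A := by
    intro x y A
    rw [Finset.sum_eq_single x, Finset.sum_eq_single y]
    · simp
    · intro q _ hq; simp [hq]
    · simp
    · intro p _ hp
      exact Finset.sum_eq_zero fun q _ => by simp [hp]
    · simp
  rw [h3, h3]
  by_cases hcd : c = d
  · simp [hcd]
  · rw [if_neg hcd, if_neg hcd, if_neg hcd, om_swap c d]
    have : kk M d c = kk M c d := by
      unfold kk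
      rw [hM.a12 c d, hM.a34 _ _ c d]; ring
    rw [this]; ring

theorem PP_oo (hM : Sy M) (hk : ∀ p q, p ≠ o → q ≠ o → 0 ≤ kk M p q)
    (hr : ∀ q, q ≠ o → 0 ≤ rr M o q) {i : Fin m × Bool} (hi : i ≠ o) :
    PP M o o i o i = M o i o i := by
  classical
  unfold PP
  rw [Fintype.sum_sum_type]
  have h1 : ∑ q : Fin m × Bool, nu M o (Sum.inr q) o i * nu M o (Sum.inr q) o i = rr M o i := by
    rw [Finset.sum_eq_single i]
    · simp only [nu, if_neg hi, if_true, zero_mul, sub_zero, mul_one]
      exact Real.mul_self_sqrt (hr i hi)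
    · intro q _ hq
      simp only [nu]
      split_ifs <;> simp_all
    · simp
  rw [h1]
  have h2 : ∑ x : (Fin m × Bool) × (Fin m × Bool), nu M o (Sum.inl x) o i * nu M o (Sum.inl x) o i =
      ∑ p, (if p = o ∨ p = i then 0 else kk M p i * ss M o p i ^ 2) := by
    rw [Fintype.sum_prod_type]
    have h3 : ∀ p q : Fin m × Bool, nu M o (Sum.inl (p, q)) o i * nu M o (Sum.inl (p, q)) o i =
        (if q = i then (if p = o ∨ p = i then 0 else kk M p i / 2 * ss M o p i ^ 2) else 0) +
        (if p = i then (if q = o ∨ q = i then 0 else kk M q i / 2 * ss M o q i ^ 2) else 0) := by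
      intro p q
      simp only [nu]
      by_cases hpq : p = o ∨ q = o ∨ p = q
      · rw [if_pos hpq, mul_zero]
        rcases hpq with h | h | h
        · subst h
          simp [hi, Ne.symm hi]
        · subst h
          simp [hi, Ne.symm hi]
        · subst h
          by_cases h3 : p = i
          · simp [h3]
          · simp [h3]
      · rw [if_neg hpq]
        push Not at hpq
        obtain ⟨hp, hq, hpq'⟩ := hpq
        have hs : Real.sqrt (kk M p q / 2) * Real.sqrt (kk M p q / 2) = kk M p q / 2 :=
          Real.mul_self_sqrt (by have := hk p q hp hq; positivity)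
        have e1 : Real.sqrt (kk M p q / 2) * om M o p q o i *
            (Real.sqrt (kk M p q / 2) * om M o p q o i) =
            kk M p q / 2 * (om M o p q o i) ^ 2 := by
          rw [aux1 hs]; ring
        rw [e1]
        have e2 : om M o p q o i = ss M o p q * (if i = q then 1 else 0) -
            (if i = p then 1 else 0) * ss M o q p := by
          simp only [om, vv, if_neg hi, if_neg (Ne.symm hp), if_neg (Ne.symm hq), if_true]
          ring
        rw [e2]
        by_cases h3 : q = i
        · subst h3
          have h4 : ¬ (p = o ∨ p = q) := by push Not; exact ⟨hp, hpq'⟩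
          rw [if_pos rfl, if_neg h4, if_neg hpq', if_pos rfl, if_neg (Ne.symm hpq')]
          ring
        · rw [if_neg h3, if_neg (Ne.symm h3)]
          by_cases h5 : p = i
          · subst h5
            have h4 : ¬ (q = o ∨ q = p) := by push Not; exact ⟨hq, h3⟩
            have h6 : kk M q p = kk M p q := by
              unfold kk
              rw [hM.a12 p q, hM.a34 _ _ p q]; ring
            rw [if_pos rfl, if_pos rfl, if_neg h4, h6]
            ring
          · rw [if_neg h5, if_neg (Ne.symm h5)]
            ring
    simp only [h3, Finset.sum_add_distrib]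
    rw [Finset.sum_comm (f := fun p q => if p = i then
      (if q = o ∨ q = i then (0 : ℝ) else kk M q i / 2 * ss M o q i ^ 2) else 0)]
    simp only [Finset.sum_ite_eq', Finset.mem_univ, if_true]
    rw [← Finset.sum_add_distrib]
    refine Finset.sum_congr rfl fun p _ => ?_
    split_ifs <;> ring
  rw [h2, rr]
  ring

end

end Pool.Agent.R775.PH
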